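import Mathlib
import Pool.Agent.Lib.MP_d51747_co.Greedy

set_option autoImplicit false

namespace Pool.Agent.Results.MP_d51747_co.GreedyTrees

/-- Let `2 ≤ s ≤ k` and suppose `j (2s - j - 1) < (k - s + 1 + j) n` for all integers
`0 ≤ j ≤ s - 2`. If `G` is a graph on `n` vertices with at least `(k-1)n/2` edges, then arbitrary
trees `T_2, …, T_s` (`T_i` on `i` vertices) pack into `G`. -/
theorem result :
    ∀ (k s n : ℕ), 2 ≤ s → s ≤ k →
    (∀ j, j + 2 ≤ s → j * (2 * s - j - 1) < (k - s + 1 + j) * n) →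
    ∀ (T : (i : ℕ) → SimpleGraph (Fin i)), (∀ i, 2 ≤ i → i ≤ s → (T i).IsTree) →
    ∀ (G : SimpleGraph (Fin n)), (k - 1) * n ≤ 2 * G.edgeSet.ncard →
    ∃ f : (i : ℕ) → Fin i → Fin n,
      (∀ i, 2 ≤ i → i ≤ s →
        Function.Injective (f i) ∧
        ∀ a b : Fin i, (T i).Adj a b → G.Adj (f i a) (f i b)) ∧
      (∀ i j, 2 ≤ i → i ≤ s → 2 ≤ j → j ≤ s → i ≠ j →
        ∀ (a b : Fin i) (c d : Fin j), (T i).Adj a b → (T j).Adj c d →
          s(f i a, f i b) ≠ s(f j c, f j d)) := by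
  intro k s n hs hsk hn T hT G hG
  exact Pool.Agent.Lib.MP_d51747_co.Greedy.pack k s n hs hsk hn T hT G hG

end Pool.Agent.Results.MP_d51747_co.GreedyTrees
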