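import Mathlib
import Pool.Agent.Lib.MP_d51747_co.Nested.Final

set_option autoImplicit false

namespace Pool.Agent.Results.MP_d51747_co.NestedFractional

/-- Fractional form of the question for nested trees, all `n`: let `T_2, …, T_k` be trees, `T_i` on
`i` vertices, such that each `T_{i+1}` contains a copy of `T_i`, and let `G` be a graph on `n ≥ 1`
vertices with at least `(k-1)n/2` edges. Then for some `N > 0` there are `N` copies of each `T_i`
in `G` such that every edge of `G` lies in at most `N` of these `(k-1)N` copies, and even in at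
most `N (k-1)(2n-k) / (n(n-1))` of them. -/
theorem result :
    ∀ (k n : ℕ), 2 ≤ k → 1 ≤ n →
    ∀ (T : (i : ℕ) → SimpleGraph (Fin i)), (∀ i, 2 ≤ i → i ≤ k → (T i).IsTree) →
    (∀ i, 2 ≤ i → i < k → ∃ g : Fin i → Fin (i + 1), Function.Injective g ∧
      ∀ a b, (T i).Adj a b → (T (i + 1)).Adj (g a) (g b)) →
    ∀ (G : SimpleGraph (Fin n)), (k - 1) * n ≤ 2 * G.edgeSet.ncard →
    ∃ (N : ℕ) (f : (i : ℕ) → Fin N → Fin i → Fin n), 0 < N ∧
      (∀ i, 2 ≤ i → i ≤ k → ∀ j : Fin N, Function.Injective (f i j) ∧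
        ∀ a b : Fin i, (T i).Adj a b → G.Adj (f i j a) (f i j b)) ∧
      (∀ e : Sym2 (Fin n), {p : ℕ × Fin N | 2 ≤ p.1 ∧ p.1 ≤ k ∧
          ∃ e' ∈ (T p.1).edgeSet, Sym2.map (f p.1 p.2) e' = e}.ncard ≤ N) ∧
      (∀ e : Sym2 (Fin n), n * (n - 1) * {p : ℕ × Fin N | 2 ≤ p.1 ∧ p.1 ≤ k ∧
          ∃ e' ∈ (T p.1).edgeSet, Sym2.map (f p.1 p.2) e' = e}.ncard
            ≤ (k - 1) * (2 * n - k) * N) := by
  intro k n hk hn T hT hnest G hG
  obtain ⟨hkn, N, f, hN, hf, hU⟩ :=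
    Pool.Agent.Lib.NestedTrees.nested_packing k n hk hn T hT hnest G hG
  have key : ∀ e : Sym2 (Fin n), n * (n - 1) * {p : ℕ × Fin N | 2 ≤ p.1 ∧ p.1 ≤ k ∧
      ∃ e' ∈ (T p.1).edgeSet, Sym2.map (f p.1 p.2) e' = e}.ncard ≤ (k - 1) * (2 * n - k) * N := by
    intro e
    by_cases he : e ∈ G.edgeSet
    · exact hU e he
    · have h0 : {p : ℕ × Fin N | 2 ≤ p.1 ∧ p.1 ≤ k ∧
          ∃ e' ∈ (T p.1).edgeSet, Sym2.map (f p.1 p.2) e' = e} = ∅ := by
        ext p
        simp only [Set.mem_ofPred_eq, Set.mem_empty_iff_false, iff_false]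
        rintro ⟨h2, h3, e', he', h⟩
        apply he
        rw [← h]
        induction e' with
        | _ a b => exact (hf p.1 h2 h3 p.2).2 a b he'
      rw [h0, Set.ncard_empty, Nat.mul_zero]
      exact Nat.zero_le _
  refine ⟨N, f, hN, hf, ?_, key⟩
  intro e
  have h1 := key e
  have h2 : (k - 1) * (2 * n - k) ≤ n * (n - 1) :=
    Pool.Agent.Lib.NestedTrees.kappa_le k n hk hkn
  have h3 : 0 < n * (n - 1) := Nat.mul_pos (by omega) (by omega)
  exact Nat.le_of_mul_le_mul_left (h1.trans (Nat.mul_le_mul_right N h2)) h3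

end Pool.Agent.Results.MP_d51747_co.NestedFractional
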