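import Mathlib
import Pool.Agent.Lib.MP_d51747_co.Paths.Ends
import Pool.Agent.Lib.MP_d51747_co.Paths.Hand
import Pool.Agent.Lib.MP_d51747_co.Paths.Switch
import Pool.Agent.Lib.MP_d51747_co.Paths.Lov
import Pool.Agent.Lib.MP_d51747_co.Paths.Matching
import Pool.Agent.Lib.MP_d51747_co.Paths.Lifo
import Pool.Agent.Lib.MP_d51747_co.Paths.Final
import Pool.Agent.Lib.MP_d51747_co.Paths.Cut
import Pool.Agent.Lib.MP_d51747_co.Paths.Greedy
import Pool.Agent.Lib.MP_d51747_co.Paths.Lists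
import Pool.Agent.Lib.MP_d51747_co.Paths.Main

set_option autoImplicit false

namespace Pool.Agent.Results.MP_d51747_co.Paths

open Pool.Agent.Lib.MP_d51747_co.Paths

/-- Let `k ≥ 2`, `s ≤ k`, `n > 0` with `(k-i)(k+i-1) < (k-i+1)n` for `2 ≤ i ≤ s`, and let `T_i` be
trees on `i` vertices (`2 ≤ i ≤ k`) such that `T_i` is a path for `s < i ≤ k`. Then `T_2, …, T_k`
pack into every graph on `n` vertices with at least `(k-1)n/2` edges. For `s = 1`: if all `T_i` are
paths, then they pack, for every `n > 0`. -/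
theorem result :
    ∀ (k s n : ℕ), 2 ≤ k → s ≤ k → 0 < n →
    (∀ i, 2 ≤ i → i ≤ s → (k - i) * (k + i - 1) < (k - i + 1) * n) →
    ∀ (T : (i : ℕ) → SimpleGraph (Fin i)), (∀ i, 2 ≤ i → i ≤ k → (T i).IsTree) →
    (∀ i, s < i → i ≤ k → Nonempty (SimpleGraph.pathGraph i ≃g T i)) →
    ∀ (G : SimpleGraph (Fin n)), (k - 1) * n ≤ 2 * G.edgeSet.ncard →
    ∃ f : (i : ℕ) → Fin i → Fin n,
      (∀ i, 2 ≤ i → i ≤ k →
        Function.Injective (f i) ∧
        ∀ a b : Fin i, (T i).Adj a b → G.Adj (f i a) (f i b)) ∧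
      (∀ i j, 2 ≤ i → i ≤ k → 2 ≤ j → j ≤ k → i ≠ j →
        ∀ (a b : Fin i) (c d : Fin j), (T i).Adj a b → (T j).Adj c d →
          s(f i a, f i b) ≠ s(f j c, f j d)) := by
  intro k s n hk hs hn hcond T hT hpath G hG
  have hlov : StLov := stLov stSwitch stEnd stHand
  have hlists : StLists := stLists hlov (stLov2 stSwitch stEnd hlov) stAllPaths stMatching stFinal
    stLifo stCut
  exact Main.main hlists stGreedy k s n hk hn hs hcond T hT hpath G hG

end Pool.Agent.Results.MP_d51747_co.Paths
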