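import Mathlib

set_option autoImplicit false

/-!
# Packing the stars on 2, ..., k vertices into a graph of average degree at least k - 1

Order the vertices by decreasing degree `v_0, v_1, ...`. By Hall's theorem one can choose, for all
`i ≤ k - 2` simultaneously, pairwise disjoint sets of `k - 1 - i` edges at `v_i`: the Hall condition
reduces to an inequality on decreasing sequences, proved in `main_ineq` by a linear programming
certificate.
-/

namespace Pool.Agent.Results.MP_d51747_co.Stars

open Finset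

/-- number of elements of U below x -/
noncomputable def cnt (U : Finset ℕ) (x : ℕ) : ℤ := ((U.filter (· < x)).card : ℤ)

lemma cnt_succ (U : Finset ℕ) (x : ℕ) : cnt U (x+1) = cnt U x + if x ∈ U then 1 else 0 := by
  unfold cnt
  by_cases h : x ∈ U
  · have : U.filter (· < x+1) = insert x (U.filter (· < x)) := by
      ext y; simp only [mem_filter, mem_insert]
      constructor
      · rintro ⟨h1, h2⟩
        by_cases hy : y = x
        · left; exact hy
        · right; exact ⟨h1, by omega⟩
      · rintro (rfl | ⟨h1, h2⟩)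
        · exact ⟨h, by omega⟩
        · exact ⟨h1, by omega⟩
    rw [this, card_insert_of_notMem (by simp)]
    simp [h]
  · have : U.filter (· < x+1) = U.filter (· < x) := by
      ext y; simp only [mem_filter]
      constructor
      · rintro ⟨h1, h2⟩
        refine ⟨h1, ?_⟩
        have : y ≠ x := by rintro rfl; exact h h1
        omega
      · rintro ⟨h1, h2⟩
        exact ⟨h1, by omega⟩
    rw [this]; simp [h]

/-- Abel summation bound: if all partial sums `C x` (x ≤ n) are ≥ `m` with m ≤ 0, `d` antitone, nonneg, d ≤ D then Σ c d ≥ m * D -/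
lemma abel (n : ℕ) (c d : ℕ → ℤ) (m D : ℤ) (hd : ∀ p, d (p+1) ≤ d p) (h0 : ∀ p, 0 ≤ d p)
    (hD : d 0 ≤ D) (hm : m ≤ 0) (hC : ∀ x, x ≤ n → m ≤ ∑ p ∈ range x, c p) :
    m * D ≤ ∑ p ∈ range n, c p * d p := by
  -- claim: for all x ≤ n, ∑_{p<x} c p d p ≥ m (d 0 - d x) + (∑_{p<x} c p) d x
  have key : ∀ x, x ≤ n → m * (d 0 - d x) + (∑ p ∈ range x, c p) * d x ≤ ∑ p ∈ range x, c p * d p := by
    intro x
    induction x with
    | zero => intro _; simp
    | succ x ih =>
      intro hx
      have h1 := ih (by omega)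
      rw [sum_range_succ, sum_range_succ (fun p => c p * d p)]
      have h2 := hC (x+1) hx
      rw [sum_range_succ] at h2
      have h3 := hd x
      nlinarith
  have h1 := key n le_rfl
  have h2 := hC n le_rfl
  have h3 := h0 n
  nlinarith

lemma sum_ge_choose (U : Finset ℕ) (s : ℕ) (h : ∀ i ∈ U, s ≤ i) :
    (U.card : ℤ) * s * 2 + U.card * (U.card - 1) ≤ 2 * ∑ i ∈ U, (i : ℤ) := by
  induction U using Finset.induction_on_max with
  | empty => simp
  | insert a U ha ih =>
    have haU : a ∉ U := fun h' => lt_irrefl _ (ha a h')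
    rw [card_insert_of_notMem haU, sum_insert haU]
    have h1 := ih (fun i hi => h i (mem_insert_of_mem hi))
    have h2 : s + U.card ≤ a := by
      have : U ⊆ Finset.Ico s a := by
        intro i hi
        rw [mem_Ico]
        exact ⟨h i (mem_insert_of_mem hi), ha i hi⟩
      have := card_le_card this
      rw [Nat.card_Ico] at this
      have := h a (mem_insert_self _ _)
      omega
    have h3 : (s : ℤ) + U.card ≤ a := by exact_mod_cast h2
    push_cast
    nlinarith


lemma main_ineq (n k : ℕ) (hk2 : 2 ≤ k) (hkn : k ≤ n) (d : ℕ → ℤ) (hd : ∀ p, d (p+1) ≤ d p)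
    (h0 : ∀ p, 0 ≤ d p) (hD : d 0 ≤ (n : ℤ) - 1)
    (hsum : ((k : ℤ) - 1) * n ≤ ∑ p ∈ range n, d p) (U : Finset ℕ) (hU : ∀ i ∈ U, i < k - 1) :
    2 * ∑ i ∈ U, ((k : ℤ) - 1 - i) + (U.card : ℤ) * (U.card - 1) ≤ 2 * ∑ i ∈ U, d i := by
  rcases U.eq_empty_or_nonempty with rfl | hne
  · simp
  have hj : 1 ≤ U.card := card_pos.mpr hne
  have hcntn : ∀ x, k - 1 ≤ x → cnt U x = U.card := by
    intro x hx
    unfold cnt
    congr 1
    rw [filter_true_of_mem]
    intro i hi
    have := hU i hi
    omega
  have hcnt0 : cnt U 0 = 0 := by simp [cnt]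
  obtain ⟨s, hs, hmax⟩ := Finset.exists_max_image (range n)
    (fun x => (((U.card : ℤ) - cnt U x : ℤ) : ℚ) / (((n : ℤ) - x : ℤ) : ℚ)) ⟨0, by simp; omega⟩
  rw [mem_range] at hs
  have hdag : ∀ x, x < n → ((n : ℤ) - s) * (U.card - cnt U x) ≤ (U.card - cnt U s) * ((n : ℤ) - x) := by
    intro x hx
    have h1 := hmax x (by simpa using hx)
    have hx' : (0 : ℚ) < (((n : ℤ) - x : ℤ) : ℚ) := by
      have : (0 : ℤ) < (n : ℤ) - x := by omega
      exact_mod_cast this
    have hs' : (0 : ℚ) < (((n : ℤ) - s : ℤ) : ℚ) := by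
      have : (0 : ℤ) < (n : ℤ) - s := by omega
      exact_mod_cast this
    rw [div_le_div_iff₀ hx' hs'] at h1
    have h2 : ((U.card : ℤ) - cnt U x) * ((n : ℤ) - s) ≤ (U.card - cnt U s) * ((n : ℤ) - x) := by
      exact_mod_cast h1
    linarith
  have hsk : s < k - 1 := by
    by_contra hcon
    have h1 := hcntn s (by omega)
    have h2 := hdag 0 (by omega)
    rw [h1, hcnt0] at h2
    have h3 : (0 : ℤ) < (n : ℤ) - s := by omega
    have h4 : (1 : ℤ) ≤ U.card := by exact_mod_cast hj
    nlinarith
  set j : ℤ := (U.card : ℤ) with hjdef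
  set r : ℤ := cnt U s with hrdef
  have hcard : ((U.filter (fun i => ¬ i < s)).card : ℤ) = j - r := by
    have := card_filter_add_card_filter_not (s := U) (· < s)
    rw [hjdef, hrdef]
    unfold cnt
    omega
  have hr0 : 0 ≤ r := Int.natCast_nonneg _
  have hrs : r ≤ s := by
    rw [hrdef]; unfold cnt
    have : U.filter (· < s) ⊆ range s := by
      intro i hi
      rw [mem_filter] at hi
      simpa using hi.2
    have := card_le_card this
    rw [card_range] at this
    exact_mod_cast this
  have ht0 : 0 ≤ j - r := by rw [← hcard]; exact Int.natCast_nonneg _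
  have ht : j - r ≤ (k : ℤ) - 1 - s := by
    rw [← hcard]
    have : U.filter (fun i => ¬ i < s) ⊆ Finset.Ico s (k - 1) := by
      intro i hi
      rw [mem_filter] at hi
      rw [mem_Ico]
      exact ⟨by omega, hU i hi.1⟩
    have := card_le_card this
    rw [Nat.card_Ico] at this
    omega
  have hsumU : ∑ i ∈ U, (i : ℤ) = ∑ i ∈ U.filter (· < s), (i : ℤ) + ∑ i ∈ U.filter (fun i => ¬ i < s), (i : ℤ) := by
    rw [sum_filter_add_sum_filter_not]
  have hs1 := sum_ge_choose (U.filter (· < s)) 0 (fun i _ => Nat.zero_le i)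
  have hs2 := sum_ge_choose (U.filter (fun i => ¬ i < s)) s (fun i hi => by
    rw [mem_filter] at hi; omega)
  rw [hcard] at hs2
  have hr1 : ((U.filter (· < s)).card : ℤ) = r := rfl
  rw [hr1] at hs1
  -- Abel
  have hC : ∀ x, ∑ p ∈ range x, (((n : ℤ) - s) * (if p ∈ U then 1 else 0) - (j - r))
      = ((n : ℤ) - s) * cnt U x - (j - r) * x := by
    intro x
    induction x with
    | zero => simp [hcnt0]
    | succ x ih =>
      rw [sum_range_succ, ih, cnt_succ]
      push_cast
      ring
  have hab := abel n (fun p => ((n : ℤ) - s) * (if p ∈ U then 1 else 0) - (j - r)) d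
    (((n : ℤ) - s) * j - (j - r) * n) ((n : ℤ) - 1) hd h0 hD
    (by
      have := hdag 0 (by omega)
      rw [hcnt0] at this
      push_cast at this
      linarith)
    (by
      intro x hx
      rw [hC]
      rcases Nat.lt_or_ge x n with h | h
      · have := hdag x h
        linarith
      · have hxn : x = n := by omega
        subst hxn
        rw [hcntn x (by omega)])
  have hsub : ∑ p ∈ range n, (((n : ℤ) - s) * (if p ∈ U then 1 else 0) - (j - r)) * d p
      = ((n : ℤ) - s) * ∑ i ∈ U, d i - (j - r) * ∑ p ∈ range n, d p := by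
    have e1 : ∑ i ∈ U, d i = ∑ p ∈ range n, (if p ∈ U then d p else 0) := by
      rw [← sum_filter]
      congr 1
      ext i
      simp only [mem_filter, mem_range]
      constructor
      · intro h; exact ⟨by have := hU i h; omega, h⟩
      · intro h; exact h.2
    rw [e1, mul_sum, mul_sum, ← sum_sub_distrib]
    apply sum_congr rfl
    intro p _
    split_ifs <;> ring
  rw [hsub] at hab
  have hns : (0 : ℤ) < (n : ℤ) - s := by omega
  have hnk : (0 : ℤ) ≤ (n : ℤ) - k := by omega
  have hks : (0 : ℤ) ≤ (k : ℤ) - s := by omega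
  have hgoal : 2 * ∑ i ∈ U, ((k : ℤ) - 1 - i) = 2 * (j * ((k : ℤ) - 1)) - 2 * ∑ i ∈ U, (i : ℤ) := by
    rw [sum_sub_distrib, sum_const, nsmul_eq_mul]
    ring
  rw [hgoal, hsumU]
  set A := ∑ i ∈ U.filter (· < s), (i : ℤ)
  set B := ∑ i ∈ U.filter (fun i => ¬ i < s), (i : ℤ)
  set S := ∑ i ∈ U, d i
  set T := ∑ p ∈ range n, d p
  have hT : (j - r) * (((k : ℤ) - 1) * n) ≤ (j - r) * T := mul_le_mul_of_nonneg_left hsum ht0
  have f1 : 0 ≤ (((n : ℤ) - s) - (j - r)) * (r * ((n : ℤ) - k)) := by
    apply mul_nonneg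
    · omega
    · exact mul_nonneg hr0 hnk
  have f2 : 0 ≤ ((j - r) * ((s : ℤ) - r)) * ((k : ℤ) - s) := by
    apply mul_nonneg
    · apply mul_nonneg ht0; omega
    · exact hks
  have hfin : ((n : ℤ) - s) * (2 * (j * ((k : ℤ) - 1)) - 2 * (A + B) + j * (j - 1)) ≤ ((n : ℤ) - s) * (2 * S) := by
    have g1 : 2 * (j * ((k : ℤ) - 1)) - 2 * (A + B) + j * (j - 1)
        ≤ 2 * (j * ((k : ℤ) - 1)) - 2 * ((j - r) * ((s : ℤ) - r)) := by
      push_cast at hs1
      nlinarith
    have g2 := mul_le_mul_of_nonneg_left g1 hns.le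
    nlinarith
  exact le_of_mul_le_mul_left hfin hns

section graph

variable {n : ℕ}

/-- The number of edges touching `U` is at least the degree sum over `U` minus `|U|(|U|-1)/2`. -/
lemma touch_card (G : SimpleGraph (Fin n)) [DecidableRel G.Adj] (U : Finset (Fin n)) :
    2 * ∑ v ∈ U, (G.degree v : ℤ) ≤
      2 * ((U.biUnion fun v => G.incidenceFinset v).card : ℤ) + (U.card : ℤ) * (U.card - 1) := by
  induction U using Finset.induction_on with
  | empty => simp
  | insert a U ha ih =>
    rw [sum_insert ha, card_insert_of_notMem ha, biUnion_insert]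
    set T := U.biUnion fun v => G.incidenceFinset v with hT
    have h1 : (G.incidenceFinset a ∩ T).card ≤ U.card := by
      have : G.incidenceFinset a ∩ T ⊆ U.image (fun u => s(a, u)) := by
        intro e he
        rw [mem_inter, hT, mem_biUnion] at he
        obtain ⟨he1, u, hu, he2⟩ := he
        rw [mem_image]
        refine ⟨u, hu, ?_⟩
        have hau : a ≠ u := by rintro rfl; exact ha hu
        rw [SimpleGraph.mem_incidenceFinset] at he1 he2
        exact ((Sym2.mem_and_mem_iff hau).1 ⟨he1.2, he2.2⟩).symm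
      exact le_trans (card_le_card this) card_image_le
    have h2 := card_union_add_card_inter (G.incidenceFinset a) T
    have h3 : (G.incidenceFinset a).card = G.degree a := G.card_incidenceFinset_eq_degree a
    rw [h3] at h2
    have h4 : ((G.incidenceFinset a ∪ T).card : ℤ) + (G.incidenceFinset a ∩ T).card
        = G.degree a + T.card := by exact_mod_cast h2
    have h5 : ((G.incidenceFinset a ∩ T).card : ℤ) ≤ U.card := by exact_mod_cast h1
    push_cast
    nlinarith

/-- `T` is a star: there is a centre `c` such that the edges of `T` are exactly the pairs of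
distinct vertices one of which is `c`. -/
def IsStar {i : ℕ} (T : SimpleGraph (Fin i)) : Prop :=
  ∃ c : Fin i, ∀ a b : Fin i, T.Adj a b ↔ a ≠ b ∧ (a = c ∨ b = c)

/-- If `G` has `n ≥ 1` vertices and at least `(k-1)n/2` edges, then the stars with `2, ..., k`
vertices pack into `G`. -/
theorem result (k n : ℕ) (hk : 2 ≤ k) (hn : 0 < n)
    (T : (i : ℕ) → SimpleGraph (Fin i)) (hT : ∀ i, 2 ≤ i → i ≤ k → IsStar (T i))
    (G : SimpleGraph (Fin n)) (hG : (k - 1) * n ≤ 2 * G.edgeSet.ncard) :
    ∃ f : (i : ℕ) → Fin i → Fin n,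
      (∀ i, 2 ≤ i → i ≤ k →
        Function.Injective (f i) ∧
        ∀ a b : Fin i, (T i).Adj a b → G.Adj (f i a) (f i b)) ∧
      (∀ i j, 2 ≤ i → i ≤ k → 2 ≤ j → j ≤ k → i ≠ j →
        ∀ (a b : Fin i) (c d : Fin j), (T i).Adj a b → (T j).Adj c d →
          s(f i a, f i b) ≠ s(f j c, f j d)) := by
  classical
  have hE : G.edgeSet.ncard = G.edgeFinset.card := by
    rw [← SimpleGraph.coe_edgeFinset, Set.ncard_coe_finset]
  rw [hE] at hG
  have hsumdeg : ∑ v, G.degree v = 2 * G.edgeFinset.card := G.sum_degrees_eq_twice_card_edges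
  have hdeg : ∀ v, G.degree v ≤ n - 1 := by
    intro v
    have := G.degree_lt_card_verts v
    rw [Fintype.card_fin] at this
    omega
  have hkn : k ≤ n := by
    have h1 : ∑ v, G.degree v ≤ ∑ _v : Fin n, (n - 1) := sum_le_sum fun v _ => hdeg v
    rw [hsumdeg, sum_const, card_univ, Fintype.card_fin, smul_eq_mul] at h1
    have h2 : (k - 1) * n ≤ (n - 1) * n := by
      calc (k - 1) * n ≤ n * (n - 1) := le_trans hG h1
        _ = (n - 1) * n := by ring
    have h3 := Nat.le_of_mul_le_mul_right h2 hn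
    omega
  -- sort the vertices by decreasing degree
  obtain ⟨σ, hσ⟩ : ∃ σ : Equiv.Perm (Fin n), ∀ p q : Fin n, p ≤ q →
      G.degree (σ q) ≤ G.degree (σ p) := by
    refine ⟨Tuple.sort (fun v => OrderDual.toDual (G.degree v)), ?_⟩
    intro p q hpq
    exact OrderDual.toDual_le_toDual.1
      (Tuple.monotone_sort (fun v => OrderDual.toDual (G.degree v)) hpq)
  let d : ℕ → ℤ := fun p => if h : p < n then (G.degree (σ ⟨p, h⟩) : ℤ) else 0
  have hd0 : ∀ p, 0 ≤ d p := by
    intro p
    simp only [d]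
    split_ifs
    · positivity
    · exact le_rfl
  have hd : ∀ p, d (p + 1) ≤ d p := by
    intro p
    by_cases h : p + 1 < n
    · have h' : p < n := by omega
      simp only [d, h, h', dif_pos]
      exact_mod_cast hσ ⟨p, h'⟩ ⟨p + 1, h⟩ (by simp)
    · have : d (p + 1) = 0 := by simp only [d, h, dif_neg, not_false_eq_true]
      rw [this]; exact hd0 p
  have hD : d 0 ≤ (n : ℤ) - 1 := by
    simp only [d, hn, dif_pos]
    have := hdeg (σ ⟨0, hn⟩)
    omega
  have hdsum : ∑ p ∈ range n, d p = 2 * (G.edgeFinset.card : ℤ) := by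
    rw [Finset.sum_range]
    have h1 : ∀ i : Fin n, d i = (G.degree (σ i) : ℤ) := by
      intro i; simp only [d, i.isLt, dif_pos]
    rw [sum_congr rfl fun i _ => h1 i, Equiv.sum_comp σ (fun v => (G.degree v : ℤ))]
    exact_mod_cast hsumdeg
  have hsum : ((k : ℤ) - 1) * n ≤ ∑ p ∈ range n, d p := by
    rw [hdsum]
    have : (((k - 1) * n : ℕ) : ℤ) ≤ ((2 * G.edgeFinset.card : ℕ) : ℤ) := by exact_mod_cast hG
    push_cast [Nat.cast_sub (show 1 ≤ k by omega)] at this
    linarith
  -- slots
  have hlt : ∀ i : Fin (k - 1), (i : ℕ) < n := fun i => by have := i.isLt; omega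
  let v : Fin (k - 1) → Fin n := fun i => σ ⟨i, hlt i⟩
  have hv : Function.Injective v := by
    intro i j hij
    have := σ.injective hij
    simp only [Fin.mk.injEq] at this
    exact Fin.ext this
  have hall : ∀ s : Finset ((i : Fin (k - 1)) × Fin (k - 1 - i)),
      s.card ≤ (s.biUnion fun x => G.incidenceFinset (v x.1)).card := by
    intro s
    set U : Finset (Fin (k - 1)) := s.image Sigma.fst with hU
    have h1 : s.card ≤ ∑ i ∈ U, (k - 1 - i) := by
      have : s ⊆ U.sigma (fun _ => univ) := by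
        intro x hx
        rw [mem_sigma]
        exact ⟨mem_image_of_mem _ hx, mem_univ _⟩
      have := card_le_card this
      rw [card_sigma] at this
      simpa using this
    have h2 : (s.biUnion fun x => G.incidenceFinset (v x.1)) = (U.image v).biUnion fun w => G.incidenceFinset w := by
      ext e
      simp only [mem_biUnion, mem_image, hU]
      constructor
      · rintro ⟨x, hx, he⟩
        exact ⟨v x.1, ⟨x.1, ⟨x, hx, rfl⟩, rfl⟩, he⟩
      · rintro ⟨w, ⟨i, ⟨x, hx, rfl⟩, rfl⟩, he⟩
        exact ⟨x, hx, he⟩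
    rw [h2]
    have h3 := touch_card G (U.image v)
    rw [card_image_of_injective U hv, sum_image (fun i _ j _ hij => hv hij)] at h3
    have h4 := main_ineq n k hk hkn d hd hd0 hD hsum (U.map ⟨Fin.val, Fin.val_injective⟩) (by
      intro i hi
      rw [mem_map] at hi
      obtain ⟨j, _, rfl⟩ := hi
      exact j.isLt)
    rw [card_map, sum_map, sum_map] at h4
    have h5 : ∀ i : Fin (k - 1), d ((⟨Fin.val, Fin.val_injective⟩ : Fin (k - 1) ↪ ℕ) i) = (G.degree (v i) : ℤ) := by
      intro i
      simp only [d, v, Function.Embedding.coeFn_mk, hlt i, dif_pos]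
    rw [sum_congr rfl fun i _ => h5 i] at h4
    have h6 : (∑ i ∈ U, ((k : ℤ) - 1 - ((⟨Fin.val, Fin.val_injective⟩ : Fin (k - 1) ↪ ℕ) i : ℕ)))
        = ((∑ i ∈ U, (k - 1 - (i : ℕ)) : ℕ) : ℤ) := by
      rw [Nat.cast_sum]
      apply sum_congr rfl
      intro i _
      have := i.isLt
      simp only [Function.Embedding.coeFn_mk]
      omega
    rw [h6] at h4
    have h7 : ((∑ i ∈ U, (k - 1 - (i : ℕ)) : ℕ) : ℤ) ≤ ((U.image v).biUnion fun w => G.incidenceFinset w).card := by
      linarith
    have h8 : (∑ i ∈ U, (k - 1 - (i : ℕ)) : ℕ) ≤ ((U.image v).biUnion fun w => G.incidenceFinset w).card := by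
      exact_mod_cast h7
    exact le_trans h1 h8
  clear_value v
  obtain ⟨φ, hφinj, hφ⟩ := (Finset.all_card_le_biUnion_card_iff_exists_injective
    (fun x : (i : Fin (k - 1)) × Fin (k - 1 - i) => G.incidenceFinset (v x.1))).1 hall
  have hw : ∀ x, ∃ w, φ x = s(v x.1, w) ∧ G.Adj (v x.1) w := by
    intro x
    have h1 := hφ x
    rw [SimpleGraph.mem_incidenceFinset] at h1
    obtain ⟨w, hw⟩ := Sym2.mem_iff_exists.1 h1.2
    refine ⟨w, hw, ?_⟩
    have := h1.1
    rw [hw, SimpleGraph.mem_edgeSet] at this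
    exact this
  choose w hw1 hw2 using hw
  have hex : ∀ j, 2 ≤ j → j ≤ k → ∃ g : Fin j → Fin n, Function.Injective g ∧
      ∀ a b : Fin j, (T j).Adj a b → G.Adj (g a) (g b) ∧
        ∃ x : (i : Fin (k - 1)) × Fin (k - 1 - i), (x.1 : ℕ) = k - j ∧ s(g a, g b) = φ x := by
    intro j hj2 hjk
    obtain ⟨c, hc⟩ := hT j hj2 hjk
    let i0 : Fin (k - 1) := ⟨k - j, by omega⟩
    have hi0 : k - 1 - (i0 : ℕ) = j - 1 := by simp only [i0]; omega
    let slot : Fin j → Fin (k - 1 - i0) := fun a =>
      ⟨if a < c then (a : ℕ) else a - 1, by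
        rw [hi0]
        have h1 := a.isLt
        have h2 := c.isLt
        split_ifs with h
        · have : (a : ℕ) < c := h
          omega
        · omega⟩
    have hslot : ∀ a b, a ≠ c → b ≠ c → slot a = slot b → a = b := by
      intro a b ha hb hab
      simp only [slot, Fin.mk.injEq] at hab
      have ha' : (a : ℕ) ≠ c := fun h => ha (Fin.ext h)
      have hb' : (b : ℕ) ≠ c := fun h => hb (Fin.ext h)
      apply Fin.ext
      split_ifs at hab with h1 h2 h2
      · exact hab
      · have h1' : (a : ℕ) < c := h1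
        have h2' : ¬ (b : ℕ) < c := h2
        omega
      · have h1' : ¬ (a : ℕ) < c := h1
        have h2' : (b : ℕ) < c := h2
        omega
      · have h1' : ¬ (a : ℕ) < c := h1
        have h2' : ¬ (b : ℕ) < c := h2
        omega
    let g : Fin j → Fin n := fun a => if a = c then v i0 else w ⟨i0, slot a⟩
    have hgc : g c = v i0 := by simp only [g, if_pos]
    have hgn : ∀ a, a ≠ c → g a = w ⟨i0, slot a⟩ := by
      intro a ha; simp only [g, if_neg ha]
    refine ⟨g, ?_, ?_⟩
    · intro a b hab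
      by_cases ha : a = c
      · by_cases hb : b = c
        · rw [ha, hb]
        · exfalso
          rw [ha, hgc, hgn b hb] at hab
          have := hw2 ⟨i0, slot b⟩
          rw [← hab] at this
          exact G.loopless.irrefl _ this
      · by_cases hb : b = c
        · exfalso
          rw [hb, hgc, hgn a ha] at hab
          have := hw2 ⟨i0, slot a⟩
          rw [hab] at this
          exact G.loopless.irrefl _ this
        · rw [hgn a ha, hgn b hb] at hab
          have h1 : φ ⟨i0, slot a⟩ = φ ⟨i0, slot b⟩ := by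
            rw [hw1, hw1, hab]
          have h2 := hφinj h1
          simp only [Sigma.mk.injEq, heq_eq_eq, true_and] at h2
          exact hslot a b ha hb h2
    · intro a b hab
      obtain ⟨hne, hcc⟩ := (hc a b).1 hab
      rcases hcc with rfl | rfl
      · have hb : b ≠ a := hne.symm
        rw [hgc, hgn b hb]
        exact ⟨hw2 ⟨i0, slot b⟩, ⟨i0, slot b⟩, rfl, (hw1 ⟨i0, slot b⟩).symm⟩
      · rw [hgc, hgn a hne]
        refine ⟨(hw2 ⟨i0, slot a⟩).symm, ⟨i0, slot a⟩, rfl, ?_⟩
        rw [Sym2.eq_swap]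
        exact (hw1 ⟨i0, slot a⟩).symm
  have : Nonempty (Fin n) := ⟨⟨0, hn⟩⟩
  choose! f hf using hex
  refine ⟨f, ?_, ?_⟩
  · intro i h2 hik
    exact ⟨(hf i h2 hik).1, fun a b hab => ((hf i h2 hik).2 a b hab).1⟩
  · intro i j hi2 hik hj2 hjk hij a b c e hab hce heq
    obtain ⟨x, hx, hx'⟩ := ((hf i hi2 hik).2 a b hab).2
    obtain ⟨y, hy, hy'⟩ := ((hf j hj2 hjk).2 c e hce).2
    have h1 : φ x = φ y := by
      rw [← hx', ← hy']; exact heq
    have h2 := hφinj h1
    rw [h2] at hx
    omega

end graph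

end Pool.Agent.Results.MP_d51747_co.Stars
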